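import Mathlib
import Pool.Agent.N735.CL.Rc1

/-!
# The prime number races, for almost all patterns

Turán asked whether every reduced class `a` modulo `b` strictly leads the race of the primes infinitely often: the
race is run along the intervals `1, 2, ..., n`. We replace the interval by an arbitrary pattern `h_1, ..., h_K` of numbers
from `{1, ..., X}`, count the primes of the classes among `x + h_1, ..., x + h_K` and let `x` vary from `1` to `X`. For
almost all patterns of length `K`, `C log² X ≤ K ≤ log^A X`, every reduced class modulo `q` strictly leads all the other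
reduced classes at some `x ≤ X`, and its largest lead is `(1 + o(1)) (2K / (φ(q) - 1))^(1/2)`; moreover all the orderings
of the reduced classes occur, and every profile of the race of the largest possible size occurs.

The upper bounds are exponential moments. The lower bound is the exact law of the largest deviations of one linear
functional of the counts (second moment with weights depending on the residues); as it holds for all functionals, the
position of the race at the place of the largest deviation is determined.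
-/

set_option autoImplicit false
set_option maxHeartbeats 1000000

namespace Pool.Agent.Results.MP_2936c6_nt.RacesForPatterns

open Finset Filter Topology
open Pool.Agent.N735.CL (Cq tot cor)

/-- the patterns: the sequences of `K` numbers from `{1, ..., X}` -/
def patterns (X K : ℕ) : Finset (Fin K → ℕ) := Fintype.piFinset fun _ => Icc 1 X

open Classical in
/-- the proportion of the patterns which have the property `B` -/
noncomputable def proportion (X K : ℕ) (B : (Fin K → ℕ) → Prop) : ℝ :=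
  (((patterns X K).filter B).card : ℝ) / (patterns X K).card

/-- the number of the primes `≡ a (mod q)` among the `x + h_i` -/
def classCount {K : ℕ} (q a : ℕ) (h : Fin K → ℕ) (x : ℕ) : ℕ :=
  (univ.filter (fun i : Fin K => (x + h i).Prime ∧ x + h i ≡ a [MOD q])).card

/-- the reduced residues modulo `q` -/
def reduced (q : ℕ) : Finset ℕ := (range q).filter (fun a => a.Coprime q)

lemma prop_eq {X K : ℕ} (B : (Fin K → ℕ) → Prop) : proportion X K B = Pool.Agent.N735.CL.PK X K B := by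
  classical
  rw [Pool.Agent.N735.CL.PK_eq]
  unfold proportion
  have h0 : patterns X K = Pool.Agent.N735.CL.Om X K := rfl
  rw [h0, Pool.Agent.N735.CL.card_Om]
  push_cast
  congr!

lemma classCount_mod {K : ℕ} (q a : ℕ) (h : Fin K → ℕ) (x : ℕ) : classCount q (a % q) h x = classCount q a h x := by
  unfold classCount
  congr 2
  ext i
  have : x + h i ≡ a % q [MOD q] ↔ x + h i ≡ a [MOD q] :=
    ⟨fun h => h.trans (Nat.mod_modEq a q), fun h => h.trans (Nat.mod_modEq a q).symm⟩
  rw [this]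

/-- the functional with the weights `w` -/
noncomputable def F (q : ℕ) (w : ℕ → ℝ) : ZMod q → ℝ := fun z => ∑ b ∈ reduced q, w b * (if z = (b : ZMod q) then 1 else 0)

lemma F_nat {q : ℕ} (w : ℕ → ℝ) {a : ℕ} (ha : a ∈ reduced q) : F q w (a : ZMod q) = w a := by
  unfold F
  rw [sum_eq_single a]
  · rw [if_pos rfl, mul_one]
  · intro b hb hne
    rw [if_neg, mul_zero]
    intro h
    apply hne
    have h1 := (ZMod.natCast_eq_natCast_iff _ _ _).1 h
    have ha' := mem_range.1 (mem_filter.1 ha).1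
    have hb' := mem_range.1 (mem_filter.1 hb).1
    have h2 : a % q = b % q := h1
    rw [Nat.mod_eq_of_lt ha', Nat.mod_eq_of_lt hb'] at h2
    exact h2.symm
  · intro h
    exact absurd ha h

lemma sum_F {q : ℕ} (w : ℕ → ℝ) : ∑ a ∈ Cq q, F q w (a : ZMod q) = ∑ a ∈ reduced q, w a :=
  sum_congr rfl (fun _ ha => F_nat w ha)

lemma cor_F {q : ℕ} (w w' : ℕ → ℝ) : cor (F q w) (F q w') = (∑ a ∈ reduced q, w a * w' a) / Nat.totient q := by
  unfold cor
  congr 1
  exact sum_congr rfl (fun a ha => by rw [F_nat w ha, F_nat w' ha])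

lemma tot_F {q K : ℕ} (w : ℕ → ℝ) (h : Fin K → ℕ) (x : ℕ) :
    tot (F q w) h x = ∑ b ∈ reduced q, w b * (classCount q b h x : ℝ) := by
  unfold tot F
  rw [sum_comm]
  apply sum_congr rfl
  intro b _
  rw [← mul_sum]
  congr 1
  unfold classCount
  rw [← sum_filter, filter_filter, sum_const, nsmul_eq_mul, mul_one]
  congr 3
  ext i
  rw [ZMod.natCast_eq_natCast_iff]

lemma card_reduced (q : ℕ) : ((reduced q).card : ℝ) = Nat.totient q := by
  rw [Nat.totient_eq_card_coprime]
  congr 2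
  unfold reduced
  apply filter_congr
  intro a _
  exact Nat.coprime_comm

lemma mod_mem {q a : ℕ} (hq : 1 ≤ q) (ha : a.Coprime q) : a % q ∈ reduced q := Pool.Agent.N735.CL.mod_mem_Cq hq ha

/-- all the profiles of the race -/
theorem profile {q : ℕ} (hq : 1 ≤ q) (w : ℕ → ℝ) (h0 : ∑ a ∈ reduced q, w a = 0) (h2 : 0 < ∑ a ∈ reduced q, w a ^ 2)
    (A : ℕ) (ε θ : ℝ) (hε : 0 < ε) (hθ : 0 < θ) :
    ∃ C : ℝ, ∃ X₀ : ℕ, ∀ X : ℕ, X₀ ≤ X → ∀ K : ℕ, C * Real.log X ^ 2 ≤ K → (K : ℝ) ≤ Real.log X ^ A →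
      1 - θ ≤ proportion X K (fun h => ∃ x : ℕ, 1 ≤ x ∧ x ≤ X ∧ ∀ a b : ℕ, a.Coprime q → b.Coprime q →
        |((classCount q a h x : ℝ) - classCount q b h x) -
          (w (a % q) - w (b % q)) * Real.sqrt (2 * K / (Nat.totient q * ∑ a ∈ reduced q, w a ^ 2))| ≤ ε * Real.sqrt K) := by
  classical
  have hφ0 : (0 : ℝ) < Nat.totient q := by exact_mod_cast Nat.totient_pos.2 hq
  set W := ∑ a ∈ reduced q, w a ^ 2 with hW
  have hcc : cor (F q w) (F q w) = W / Nat.totient q := by
    rw [cor_F, hW]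
    congr 1
    exact sum_congr rfl (fun a _ => (sq (w a)).symm)
  have hV : 0 < cor (F q w) (F q w) := by rw [hcc]; positivity
  set dw : ℕ × ℕ → ℕ → ℝ := fun p n => (if n = p.1 then 1 else 0) - (if n = p.2 then 1 else 0) with hdw
  have hsumδ : ∀ (f : ℕ → ℝ) (a : ℕ), a ∈ reduced q → ∑ n ∈ reduced q, f n * (if n = a then (1 : ℝ) else 0) = f a := by
    intro f a ha
    rw [sum_eq_single a]
    · rw [if_pos rfl, mul_one]
    · intro b _ hne
      rw [if_neg hne, mul_zero]
    · intro h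
      exact absurd ha h
  have hd0 : ∀ p ∈ reduced q ×ˢ reduced q, ∑ a ∈ Cq q, F q (dw p) (a : ZMod q) = 0 := by
    intro p hp
    rw [mem_product] at hp
    rw [sum_F]
    simp only [hdw]
    rw [sum_sub_distrib]
    have a1 := hsumδ (fun _ => 1) p.1 hp.1
    have a2 := hsumδ (fun _ => 1) p.2 hp.2
    simp only [one_mul] at a1 a2
    rw [a1, a2, sub_self]
  obtain ⟨C, hC⟩ := Pool.Agent.N735.CL.dir_law hq (reduced q ×ˢ reduced q) (F q w) (fun p => F q (dw p)) hV
    (by rw [sum_F]; exact h0) hd0 A (ε / 2) θ (by positivity) hθ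
  obtain ⟨X₀, hX₀⟩ := eventually_atTop.1 hC
  refine ⟨C, max X₀ 1, fun X hX K hK hKA => ?_⟩
  have hX1 : 1 ≤ X := (le_max_right _ _).trans hX
  have h3 := hX₀ X ((le_max_left _ _).trans hX) K hK hKA
  rw [prop_eq]
  have h4 := Pool.Agent.N735.CL.PK_not hX1 (K := K) (fun h => ∃ m ∈ Icc 1 X, ∀ p ∈ reduced q ×ˢ reduced q,
    |tot (F q (dw p)) h m - cor (F q w) (F q (dw p)) / Real.sqrt (cor (F q w) (F q w)) * Real.sqrt (2 * K)| ≤ ε / 2 * Real.sqrt (2 * K))
  have h5 := Pool.Agent.N735.CL.PK_mono (X := X) (K := K) (B := fun h => ∃ m ∈ Icc 1 X, ∀ p ∈ reduced q ×ˢ reduced q,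
      |tot (F q (dw p)) h m - cor (F q w) (F q (dw p)) / Real.sqrt (cor (F q w) (F q w)) * Real.sqrt (2 * K)| ≤ ε / 2 * Real.sqrt (2 * K))
    (C := fun h => ∃ x : ℕ, 1 ≤ x ∧ x ≤ X ∧ ∀ a b : ℕ, a.Coprime q → b.Coprime q →
        |((classCount q a h x : ℝ) - classCount q b h x) - (w (a % q) - w (b % q)) * Real.sqrt (2 * K / (Nat.totient q * W))| ≤ ε * Real.sqrt K) (by
      rintro h _ ⟨m, hm, hmp⟩
      rw [mem_Icc] at hm
      refine ⟨m, hm.1, hm.2, fun a b ha hb => ?_⟩
      have ha' := mod_mem hq ha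
      have hb' := mod_mem hq hb
      have h6 := hmp (a % q, b % q) (mem_product.2 ⟨ha', hb'⟩)
      have e1 : tot (F q (dw (a % q, b % q))) h m = (classCount q a h m : ℝ) - classCount q b h m := by
        rw [tot_F]
        have g1 : ∀ n ∈ reduced q, dw (a % q, b % q) n * (classCount q n h m : ℝ) =
            (classCount q n h m : ℝ) * (if n = a % q then (1 : ℝ) else 0) -
              (classCount q n h m : ℝ) * (if n = b % q then (1 : ℝ) else 0) := by
          intro n _
          simp only [hdw]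
          ring
        have c1 : ∑ n ∈ reduced q, (classCount q n h m : ℝ) * (if n = a % q then (1 : ℝ) else 0) = classCount q (a % q) h m :=
          hsumδ (fun n => (classCount q n h m : ℝ)) (a % q) ha'
        have c2 : ∑ n ∈ reduced q, (classCount q n h m : ℝ) * (if n = b % q then (1 : ℝ) else 0) = classCount q (b % q) h m :=
          hsumδ (fun n => (classCount q n h m : ℝ)) (b % q) hb'
        rw [sum_congr rfl g1, sum_sub_distrib, c1, c2, classCount_mod, classCount_mod]
      have e2 : cor (F q w) (F q (dw (a % q, b % q))) = (w (a % q) - w (b % q)) / Nat.totient q := by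
        rw [cor_F]
        congr 1
        simp only [hdw, mul_sub]
        rw [sum_sub_distrib, hsumδ w _ ha', hsumδ w _ hb']
      rw [e1, e2, hcc] at h6
      have e3 : (w (a % q) - w (b % q)) / (Nat.totient q : ℝ) / Real.sqrt (W / Nat.totient q) * Real.sqrt (2 * K) =
          (w (a % q) - w (b % q)) * Real.sqrt (2 * K / (Nat.totient q * W)) := by
        have f1 : Real.sqrt (2 * K / (Nat.totient q * W)) = Real.sqrt (2 * K) / (Nat.totient q * Real.sqrt (W / Nat.totient q)) := by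
          have f2 : (Nat.totient q : ℝ) * Real.sqrt (W / Nat.totient q) = Real.sqrt (Nat.totient q * W) := by
            have f3 : (Nat.totient q : ℝ) = Real.sqrt ((Nat.totient q : ℝ) ^ 2) := (Real.sqrt_sq hφ0.le).symm
            conv_lhs => rw [f3]
            rw [← Real.sqrt_mul (sq_nonneg _)]
            congr 1
            rw [Real.sqrt_sq hφ0.le]
            field_simp
          rw [f2, Real.sqrt_div (by positivity)]
        rw [f1]
        field_simp
      rw [e3] at h6
      refine h6.trans ?_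
      have f4 : Real.sqrt (2 * (K : ℝ)) ≤ 2 * Real.sqrt K := by
        rw [Real.sqrt_mul (by norm_num)]
        apply mul_le_mul_of_nonneg_right _ (Real.sqrt_nonneg _)
        rw [Real.sqrt_le_left (by norm_num)]
        norm_num
      have f5 := mul_le_mul_of_nonneg_left f4 (show 0 ≤ ε / 2 by positivity)
      linarith)
  linarith

lemma two_le_totient {q : ℕ} (hq : 3 ≤ q) : (2 : ℝ) ≤ Nat.totient q := by
  have h1 : Even (Nat.totient q) := Nat.totient_even (by omega)
  have h2 : 0 < Nat.totient q := Nat.totient_pos.2 (by omega)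
  obtain ⟨k, hk⟩ := h1
  have : 2 ≤ Nat.totient q := by omega
  exact_mod_cast this

/-- the largest lead of a class -/
theorem lead {q a : ℕ} (hq : 3 ≤ q) (ha : a.Coprime q) (A : ℕ) (ε θ : ℝ) (hε : 0 < ε) (hε1 : ε ≤ 1) (hθ : 0 < θ) :
    ∃ C : ℝ, ∃ X₀ : ℕ, ∀ X : ℕ, X₀ ≤ X → ∀ K : ℕ, C * Real.log X ^ 2 ≤ K → (K : ℝ) ≤ Real.log X ^ A →
      1 - θ ≤ proportion X K (fun h =>
        (∃ x : ℕ, 1 ≤ x ∧ x ≤ X ∧ ∀ b : ℕ, b.Coprime q → ¬ b ≡ a [MOD q] →
          (1 - ε) * Real.sqrt (2 * K / (Nat.totient q - 1)) ≤ (classCount q a h x : ℝ) - classCount q b h x) ∧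
        (∀ x : ℕ, 1 ≤ x → x ≤ X → ∃ b : ℕ, b.Coprime q ∧ ¬ b ≡ a [MOD q] ∧
          (classCount q a h x : ℝ) - classCount q b h x ≤ (1 + ε) * Real.sqrt (2 * K / (Nat.totient q - 1)))) := by
  classical
  have hq1 : 1 ≤ q := by omega
  have hφ2 := two_le_totient hq
  set φ := (Nat.totient q : ℝ) with hφ
  have hφ0 : 0 < φ := by linarith
  have hφ1 : 0 < φ - 1 := by linarith
  have ha' := mod_mem hq1 ha
  set w : ℕ → ℝ := fun n => if n = a % q then 1 else -(1 / (φ - 1)) with hw
  have hcard := card_reduced q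
  have hsplit : ∀ f : ℕ → ℝ, ∑ n ∈ reduced q, f n = f (a % q) + ∑ n ∈ (reduced q).erase (a % q), f n := fun f =>
    (add_sum_erase (reduced q) f ha').symm
  have hce : (((reduced q).erase (a % q)).card : ℝ) = φ - 1 := by
    rw [card_erase_of_mem ha', Nat.cast_sub (card_pos.2 ⟨_, ha'⟩), hcard, Nat.cast_one]
  have hwe : ∀ n ∈ (reduced q).erase (a % q), w n = -(1 / (φ - 1)) := by
    intro n hn
    simp only [hw]
    rw [if_neg (mem_erase.1 hn).1]
  have hwa : w (a % q) = 1 := by simp [hw]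
  have h0 : ∑ n ∈ reduced q, w n = 0 := by
    rw [hsplit, hwa, sum_congr rfl hwe, sum_const, nsmul_eq_mul, hce]
    field_simp
    ring
  have hW : ∑ n ∈ reduced q, w n ^ 2 = φ / (φ - 1) := by
    rw [hsplit, hwa, sum_congr rfl (fun n hn => by rw [hwe n hn]), sum_const, nsmul_eq_mul, hce]
    field_simp
    ring
  have hWpos : 0 < ∑ n ∈ reduced q, w n ^ 2 := by rw [hW]; positivity
  have hr0 : 0 < Real.sqrt (φ - 1) := Real.sqrt_pos.2 hφ1
  obtain ⟨C₁, X₁, h1⟩ := profile hq1 w h0 hWpos A (ε / Real.sqrt (φ - 1)) (θ / 2) (by positivity) (by positivity)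
  have hcc : cor (F q w) (F q w) = 1 / (φ - 1) := by
    rw [cor_F]
    have e : ∑ a ∈ reduced q, w a * w a = φ / (φ - 1) := by
      rw [← hW]
      exact sum_congr rfl (fun a _ => (sq (w a)).symm)
    rw [e, ← hφ]
    field_simp
  obtain ⟨C₂, hC₂⟩ := Pool.Agent.N735.CL.bal_law hq1 (F q w) (by rw [hcc]; positivity) (by rw [sum_F]; exact h0) A ε (θ / 2) hε hε1 (by positivity)
  obtain ⟨X₂, hX₂⟩ := eventually_atTop.1 hC₂
  refine ⟨max C₁ C₂, max (max X₁ X₂) 1, fun X hX K hK hKA => ?_⟩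
  have hX1 : 1 ≤ X := (le_max_right _ _).trans hX
  have hLn : 0 ≤ Real.log (X : ℝ) ^ 2 := sq_nonneg _
  have b1 := h1 X (((le_max_left _ _).trans (le_max_left _ _)).trans hX) K
    ((mul_le_mul_of_nonneg_right (le_max_left _ _) hLn).trans hK) hKA
  have b2 := hX₂ X (((le_max_right _ _).trans (le_max_left _ _)).trans hX) K
    ((mul_le_mul_of_nonneg_right (le_max_right _ _) hLn).trans hK) hKA
  rw [prop_eq] at b1 ⊢
  set R := Real.sqrt (2 * K / (φ - 1)) with hR
  set P1 : (Fin K → ℕ) → Prop := fun h => ∃ x : ℕ, 1 ≤ x ∧ x ≤ X ∧ ∀ a b : ℕ, a.Coprime q → b.Coprime q →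
        |((classCount q a h x : ℝ) - classCount q b h x) -
          (w (a % q) - w (b % q)) * Real.sqrt (2 * K / (φ * ∑ a ∈ reduced q, w a ^ 2))| ≤ ε / Real.sqrt (φ - 1) * Real.sqrt K with hP1
  set P2 : (Fin K → ℕ) → Prop := fun h => (∃ m ∈ Icc 1 X, (1 - ε) * Real.sqrt (2 * cor (F q w) (F q w) * K) ≤ tot (F q w) h m) ∧
        (∀ m ∈ Icc 1 X, tot (F q w) h m ≤ (1 + ε) * Real.sqrt (2 * cor (F q w) (F q w) * K)) with hP2
  have hmod : ∀ b : ℕ, b.Coprime q → ¬ b ≡ a [MOD q] → w (b % q) = -(1 / (φ - 1)) := by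
    intro b _ hba
    simp only [hw]
    rw [if_neg]
    exact hba
  have hprofile : (1 + 1 / (φ - 1)) * Real.sqrt (2 * K / (φ * (φ / (φ - 1)))) = R := by
    have e1 : (1 + 1 / (φ - 1)) = Real.sqrt ((φ / (φ - 1)) ^ 2) := by
      rw [Real.sqrt_sq (by positivity)]
      field_simp
      ring
    rw [e1, ← Real.sqrt_mul (by positivity), hR]
    congr 1
    field_simp
  have hRK : 1 / Real.sqrt (φ - 1) * Real.sqrt K ≤ R := by
    rw [hR, Real.sqrt_div (by positivity)]
    rw [one_div, inv_mul_eq_div]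
    apply div_le_div_of_nonneg_right _ hr0.le
    exact Real.sqrt_le_sqrt (by linarith [(Nat.cast_nonneg K : (0 : ℝ) ≤ K)])
  have himp : ∀ h : Fin K → ℕ, P1 h → P2 h →
      ((∃ x : ℕ, 1 ≤ x ∧ x ≤ X ∧ ∀ b : ℕ, b.Coprime q → ¬ b ≡ a [MOD q] →
          (1 - ε) * R ≤ (classCount q a h x : ℝ) - classCount q b h x) ∧
        (∀ x : ℕ, 1 ≤ x → x ≤ X → ∃ b : ℕ, b.Coprime q ∧ ¬ b ≡ a [MOD q] ∧
          (classCount q a h x : ℝ) - classCount q b h x ≤ (1 + ε) * R)) := by
    rintro h ⟨x, hx1, hxX, hx⟩ ⟨_, hup⟩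
    constructor
    · refine ⟨x, hx1, hxX, fun b hb hba => ?_⟩
      have h3 := hx a b ha hb
      rw [hwa, hmod b hb hba, hW, sub_neg_eq_add, hprofile] at h3
      have h4 := (abs_le.1 h3).1
      have h5 : ε / Real.sqrt (φ - 1) * Real.sqrt K ≤ ε * R := by
        have := mul_le_mul_of_nonneg_left hRK hε.le
        calc ε / Real.sqrt (φ - 1) * Real.sqrt K = ε * (1 / Real.sqrt (φ - 1) * Real.sqrt K) := by ring
          _ ≤ _ := this
      linarith
    · intro x hx1 hxX
      have h3 := hup x (mem_Icc.2 ⟨hx1, hxX⟩)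
      have e1 : Real.sqrt (2 * cor (F q w) (F q w) * K) = R := by
        rw [hcc, hR]
        congr 1
        field_simp
      rw [e1, tot_F, hsplit (fun b => w b * (classCount q b h x : ℝ))] at h3
      simp only [hwa, one_mul] at h3
      have e2 : ∑ n ∈ (reduced q).erase (a % q), w n * (classCount q n h x : ℝ) =
          -(1 / (φ - 1)) * ∑ n ∈ (reduced q).erase (a % q), (classCount q n h x : ℝ) := by
        rw [mul_sum]
        exact sum_congr rfl (fun n hn => by rw [hwe n hn])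
      rw [e2, classCount_mod] at h3
      by_contra hc
      push Not at hc
      have hne : ((reduced q).erase (a % q)).Nonempty := by
        rw [← card_pos]
        have : (0 : ℝ) < ((reduced q).erase (a % q)).card := by rw [hce]; exact hφ1
        exact_mod_cast this
      have h4 : ∑ n ∈ (reduced q).erase (a % q), ((1 + ε) * R) < ∑ n ∈ (reduced q).erase (a % q), ((classCount q a h x : ℝ) - classCount q n h x) := by
        apply sum_lt_sum_of_nonempty hne
        intro n hn
        obtain ⟨n1, n2⟩ := mem_erase.1 hn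
        have n3 := mem_filter.1 n2
        apply hc n n3.2
        intro hna
        apply n1
        have h5 : n % q = a % q := hna
        rw [← h5, Nat.mod_eq_of_lt (mem_range.1 n3.1)]
      rw [sum_const, nsmul_eq_mul, sum_sub_distrib, sum_const, nsmul_eq_mul, hce] at h4
      have h5 := mul_le_mul_of_nonneg_left h3 hφ1.le
      have e3 : (φ - 1) * ((classCount q a h x : ℝ) + -(1 / (φ - 1)) * ∑ n ∈ (reduced q).erase (a % q), (classCount q n h x : ℝ)) =
          (φ - 1) * (classCount q a h x : ℝ) - ∑ n ∈ (reduced q).erase (a % q), (classCount q n h x : ℝ) := by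
        field_simp
        ring
      rw [e3] at h5
      linarith
  have c1 := Pool.Agent.N735.CL.PK_not hX1 (K := K) P1
  have c2 := Pool.Agent.N735.CL.PK_or (X := X) (K := K) (fun h => ¬ P1 h) (fun h => ¬ P2 h)
  have c3 := Pool.Agent.N735.CL.PK_not hX1 (K := K) (fun h => ¬ P1 h ∨ ¬ P2 h)
  have c4 : Pool.Agent.N735.CL.PK X K (fun h => ¬ (¬ P1 h ∨ ¬ P2 h)) ≤ Pool.Agent.N735.CL.PK X K (fun h =>
      ((∃ x : ℕ, 1 ≤ x ∧ x ≤ X ∧ ∀ b : ℕ, b.Coprime q → ¬ b ≡ a [MOD q] →
          (1 - ε) * R ≤ (classCount q a h x : ℝ) - classCount q b h x) ∧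
        (∀ x : ℕ, 1 ≤ x → x ≤ X → ∃ b : ℕ, b.Coprime q ∧ ¬ b ≡ a [MOD q] ∧
          (classCount q a h x : ℝ) - classCount q b h x ≤ (1 + ε) * R))) :=
    Pool.Agent.N735.CL.PK_mono (fun h _ hh => by
      rw [not_or, not_not, not_not] at hh
      exact himp h hh.1 hh.2)
  linarith

/-- all the orderings occur -/
theorem orderings {q : ℕ} (hq : 3 ≤ q) (w : ℕ → ℝ) (hinj : Set.InjOn w (reduced q)) (A : ℕ) (θ : ℝ) (hθ : 0 < θ) :
    ∃ C : ℝ, ∃ X₀ : ℕ, ∀ X : ℕ, X₀ ≤ X → ∀ K : ℕ, C * Real.log X ^ 2 ≤ K → (K : ℝ) ≤ Real.log X ^ A →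
      1 - θ ≤ proportion X K (fun h => ∃ x : ℕ, 1 ≤ x ∧ x ≤ X ∧ ∀ a b : ℕ, a.Coprime q → b.Coprime q →
        w (a % q) < w (b % q) → classCount q a h x < classCount q b h x) := by
  classical
  have hq1 : 1 ≤ q := by omega
  have hφ2 := two_le_totient hq
  set φ := (Nat.totient q : ℝ) with hφ
  have hφ0 : 0 < φ := by linarith
  have hcard := card_reduced q
  set μ := (∑ n ∈ reduced q, w n) / φ with hμ
  set u : ℕ → ℝ := fun n => w n - μ with hu
  have h0 : ∑ n ∈ reduced q, u n = 0 := by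
    simp only [hu]
    rw [sum_sub_distrib, sum_const, nsmul_eq_mul, hcard, hμ]
    field_simp
    ring
  have hu2 : 0 < ∑ n ∈ reduced q, u n ^ 2 := by
    have h1 : 1 < (reduced q).card := by
      have : (1 : ℝ) < (reduced q).card := by rw [hcard]; linarith
      exact_mod_cast this
    obtain ⟨a, ha, b, hb, hab⟩ := one_lt_card.1 h1
    have h2 : u a ≠ 0 ∨ u b ≠ 0 := by
      by_contra hc
      push Not at hc
      apply hab
      apply hinj ha hb
      have h3 := hc.1
      have h4 := hc.2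
      simp only [hu] at h3 h4
      linarith
    rcases h2 with h2 | h2
    · exact sum_pos' (fun _ _ => sq_nonneg _) ⟨a, ha, by positivity⟩
    · exact sum_pos' (fun _ _ => sq_nonneg _) ⟨b, hb, by positivity⟩
  set W := ∑ n ∈ reduced q, u n ^ 2 with hW
  -- the smallest difference
  obtain ⟨g, hg0, hg⟩ : ∃ g : ℝ, 0 < g ∧ ∀ a ∈ reduced q, ∀ b ∈ reduced q, w a < w b → g ≤ w b - w a := by
    set P := (reduced q ×ˢ reduced q).filter (fun p => w p.1 < w p.2) with hP
    rcases P.eq_empty_or_nonempty with hPe | hPn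
    · refine ⟨1, one_pos, fun a ha b hb hab => ?_⟩
      exfalso
      have : (a, b) ∈ P := by rw [hP, mem_filter, mem_product]; exact ⟨⟨ha, hb⟩, hab⟩
      rw [hPe] at this
      exact absurd this (notMem_empty _)
    · obtain ⟨p, hp, hmin⟩ := P.exists_min_image (fun p => w p.2 - w p.1) hPn
      refine ⟨w p.2 - w p.1, ?_, fun a ha b hb hab => ?_⟩
      · have := (mem_filter.1 hp).2
        linarith
      · have : (a, b) ∈ P := by rw [hP, mem_filter, mem_product]; exact ⟨⟨ha, hb⟩, hab⟩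
        exact hmin (a, b) this
  have hs0 : 0 < Real.sqrt (φ * W) := Real.sqrt_pos.2 (by positivity)
  obtain ⟨C, X₁, h1⟩ := profile hq1 u h0 hu2 A (g / (2 * Real.sqrt (φ * W))) θ (by positivity) hθ
  refine ⟨max C 1, max X₁ 3, fun X hX K hK hKA => ?_⟩
  have hX3 : 3 ≤ X := (le_max_right _ _).trans hX
  have hLn : 0 ≤ Real.log (X : ℝ) ^ 2 := sq_nonneg _
  have hLpos : 0 < Real.log (X : ℝ) := Real.log_pos (by exact_mod_cast (by omega : 1 < X))
  have hK0 : (0 : ℝ) < K := by
    have h3 : 1 * Real.log (X : ℝ) ^ 2 ≤ K := (mul_le_mul_of_nonneg_right (le_max_right _ _) hLn).trans hK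
    have h4 : 0 < Real.log (X : ℝ) ^ 2 := by positivity
    linarith
  have b1 := h1 X ((le_max_left _ _).trans hX) K ((mul_le_mul_of_nonneg_right (le_max_left _ _) hLn).trans hK) hKA
  rw [prop_eq] at b1 ⊢
  refine b1.trans (Pool.Agent.N735.CL.PK_mono ?_)
  rintro h _ ⟨x, hx1, hxX, hx⟩
  refine ⟨x, hx1, hxX, fun a b ha hb hab => ?_⟩
  have h3 := hx b a hb ha
  have h4 := hg (a % q) (mod_mem hq1 ha) (b % q) (mod_mem hq1 hb) hab
  have e1 : u (b % q) - u (a % q) = w (b % q) - w (a % q) := by simp only [hu]; ring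
  rw [e1] at h3
  have e2 : Real.sqrt (2 * K / (φ * W)) = Real.sqrt (2 * K) / Real.sqrt (φ * W) := Real.sqrt_div (by positivity) _
  rw [e2] at h3
  have hsK : 0 < Real.sqrt (K : ℝ) := Real.sqrt_pos.2 hK0
  have h5 : Real.sqrt K ≤ Real.sqrt (2 * K) := Real.sqrt_le_sqrt (by linarith)
  have h6 : g * (Real.sqrt K / Real.sqrt (φ * W)) ≤ (w (b % q) - w (a % q)) * (Real.sqrt (2 * K) / Real.sqrt (φ * W)) := by
    apply mul_le_mul h4 _ (by positivity) (by linarith)
    exact div_le_div_of_nonneg_right h5 hs0.le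
  have h7 : g / (2 * Real.sqrt (φ * W)) * Real.sqrt K = g * (Real.sqrt K / Real.sqrt (φ * W)) / 2 := by field_simp
  rw [h7] at h3
  have h8 := (abs_le.1 h3).1
  have h9 : 0 < g * (Real.sqrt K / Real.sqrt (φ * W)) := by positivity
  have h10 : (classCount q a h x : ℝ) < classCount q b h x := by linarith
  exact_mod_cast h10

/-- The races of the primes in the residue classes. -/
theorem result :
    -- the pattern `1, 2, ..., K`: the primes `≡ a (mod q)` in `(x, x + K]`
    (∀ q a K x : ℕ, classCount q a (fun i : Fin K => (i : ℕ) + 1) x =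
      ((Ioc x (x + K)).filter (fun p => p.Prime ∧ p ≡ a [MOD q])).card) ∧
    -- (1) every class leads; its largest lead over all the others
    (∀ q a : ℕ, 3 ≤ q → a.Coprime q → ∀ A : ℕ, ∀ ε θ : ℝ, 0 < ε → ε ≤ 1 → 0 < θ →
      ∃ C : ℝ, ∃ X₀ : ℕ, ∀ X : ℕ, X₀ ≤ X → ∀ K : ℕ, C * Real.log X ^ 2 ≤ K → (K : ℝ) ≤ Real.log X ^ A →
        1 - θ ≤ proportion X K (fun h =>
          (∃ x : ℕ, 1 ≤ x ∧ x ≤ X ∧ ∀ b : ℕ, b.Coprime q → ¬ b ≡ a [MOD q] →
            (1 - ε) * Real.sqrt (2 * K / (Nat.totient q - 1)) ≤ (classCount q a h x : ℝ) - classCount q b h x) ∧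
          (∀ x : ℕ, 1 ≤ x → x ≤ X → ∃ b : ℕ, b.Coprime q ∧ ¬ b ≡ a [MOD q] ∧
            (classCount q a h x : ℝ) - classCount q b h x ≤ (1 + ε) * Real.sqrt (2 * K / (Nat.totient q - 1))))) ∧
    -- (2) all the orderings of the classes occur
    (∀ q : ℕ, 3 ≤ q → ∀ w : ℕ → ℝ, Set.InjOn w (reduced q) → ∀ A : ℕ, ∀ θ : ℝ, 0 < θ →
      ∃ C : ℝ, ∃ X₀ : ℕ, ∀ X : ℕ, X₀ ≤ X → ∀ K : ℕ, C * Real.log X ^ 2 ≤ K → (K : ℝ) ≤ Real.log X ^ A →
        1 - θ ≤ proportion X K (fun h => ∃ x : ℕ, 1 ≤ x ∧ x ≤ X ∧ ∀ a b : ℕ, a.Coprime q → b.Coprime q →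
          w (a % q) < w (b % q) → classCount q a h x < classCount q b h x)) ∧
    -- (3) all the extremal profiles occur
    (∀ q : ℕ, 1 ≤ q → ∀ w : ℕ → ℝ, ∑ a ∈ reduced q, w a = 0 → 0 < ∑ a ∈ reduced q, w a ^ 2 → ∀ A : ℕ, ∀ ε θ : ℝ, 0 < ε → 0 < θ →
      ∃ C : ℝ, ∃ X₀ : ℕ, ∀ X : ℕ, X₀ ≤ X → ∀ K : ℕ, C * Real.log X ^ 2 ≤ K → (K : ℝ) ≤ Real.log X ^ A →
        1 - θ ≤ proportion X K (fun h => ∃ x : ℕ, 1 ≤ x ∧ x ≤ X ∧ ∀ a b : ℕ, a.Coprime q → b.Coprime q →
          |((classCount q a h x : ℝ) - classCount q b h x) -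
            (w (a % q) - w (b % q)) * Real.sqrt (2 * K / (Nat.totient q * ∑ a ∈ reduced q, w a ^ 2))| ≤ ε * Real.sqrt K)) := by
  refine ⟨?_, ?_, ?_, ?_⟩
  · intro q a K x
    unfold classCount
    apply card_bij (fun (i : Fin K) _ => x + ((i : ℕ) + 1))
    · intro i hi
      rw [mem_filter] at hi
      rw [mem_filter, mem_Ioc]
      have := i.isLt
      exact ⟨⟨by omega, by omega⟩, hi.2⟩
    · intro i _ j _ hij
      apply Fin.ext
      omega
    · intro p hp
      rw [mem_filter, mem_Ioc] at hp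
      refine ⟨⟨p - x - 1, by omega⟩, ?_, by simp only; omega⟩
      rw [mem_filter]
      refine ⟨mem_univ _, ?_⟩
      have e : x + (p - x - 1 + 1) = p := by omega
      simp only [e]
      exact hp.2
  · intro q a hq ha A ε θ hε hε1 hθ
    exact lead hq ha A ε θ hε hε1 hθ
  · intro q hq w hw A θ hθ
    exact orderings hq w hw A θ hθ
  · intro q hq w h0 h2 A ε θ hε hθ
    exact profile hq w h0 h2 A ε θ hε hθ

end Pool.Agent.Results.MP_2936c6_nt.RacesForPatterns
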